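import Mathlib

namespace Pool.Agent.Q105.FRX

open Matrix

variable {V : Type} [Fintype V] [DecidableEq V] (X : SimpleGraph V) [DecidableRel X.Adj]

/-- `E_θ`: the orthogonal projection onto the `θ`-eigenspace of the adjacency matrix of `X` (it is
`0` when `θ` is not an eigenvalue). -/
noncomputable def eigProj (θ : ℝ) : EuclideanSpace ℝ V →L[ℝ] EuclideanSpace ℝ V :=
  (Module.End.eigenspace (Matrix.toEuclideanLin (X.adjMatrix ℝ)) θ).starProjection

/-- The entry `(E_θ)_{u,v}`. -/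
noncomputable def eigEntry (θ : ℝ) (u v : V) : ℝ :=
  (eigProj X θ (EuclideanSpace.single v 1)) u

theorem mem_eigenspace {θ : ℝ} {v : V → ℝ} :
    WithLp.toLp 2 v ∈ Module.End.eigenspace (Matrix.toEuclideanLin (X.adjMatrix ℝ)) θ ↔
      X.adjMatrix ℝ *ᵥ v = θ • v := by
  rw [Module.End.mem_eigenspace_iff, Matrix.toEuclideanLin_apply_piLp_toLp, ← WithLp.toLp_smul]
  exact (WithLp.toLp_injective 2).eq_iff

theorem mem_orth {θ μ : ℝ} (hne : μ ≠ θ) {w : V → ℝ} (hw : X.adjMatrix ℝ *ᵥ w = μ • w) :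
    WithLp.toLp 2 w ∈
      (Module.End.eigenspace (Matrix.toEuclideanLin (X.adjMatrix ℝ)) θ)ᗮ := by
  have hH : (X.adjMatrix ℝ).IsHermitian := by
    unfold Matrix.IsHermitian
    rw [Matrix.conjTranspose_eq_transpose_of_trivial, SimpleGraph.transpose_adjMatrix]
  have hS := Matrix.isSymmetric_toEuclideanLin_iff.2 hH
  rw [Submodule.mem_orthogonal]
  intro u hu
  rw [Module.End.mem_eigenspace_iff] at hu
  have hw' : Matrix.toEuclideanLin (X.adjMatrix ℝ) (WithLp.toLp 2 w) = μ • WithLp.toLp 2 w := by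
    rw [Matrix.toEuclideanLin_apply_piLp_toLp, hw, WithLp.toLp_smul]
  have h1 := hS u (WithLp.toLp 2 w)
  rw [hu, hw', inner_smul_left, inner_smul_right] at h1
  simp only [conj_trivial] at h1
  have h2 : (θ - μ) * inner ℝ u (WithLp.toLp 2 w) = 0 := by linarith
  rcases mul_eq_zero.1 h2 with h | h
  · exact absurd (sub_eq_zero.1 h).symm hne
  · exact h

/-- Computing `E_θ` on a sum of an eigenvector for `θ` and eigenvectors for other eigenvalues. -/
theorem eigProj_of_sum {θ : ℝ} {v : V → ℝ} {ι : Type} (s : Finset ι) (μ : ι → ℝ) (w : ι → V → ℝ)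
    (hv : X.adjMatrix ℝ *ᵥ v = θ • v) (hw : ∀ i ∈ s, X.adjMatrix ℝ *ᵥ w i = μ i • w i)
    (hne : ∀ i ∈ s, μ i ≠ θ) :
    eigProj X θ (WithLp.toLp 2 (v + ∑ i ∈ s, w i)) = WithLp.toLp 2 v := by
  unfold eigProj
  apply Submodule.eq_starProjection_of_mem_orthogonal' (z := ∑ i ∈ s, WithLp.toLp 2 (w i))
  · exact (mem_eigenspace X).2 hv
  · exact Submodule.sum_mem _ fun i hi => mem_orth X (hne i hi) (hw i hi)
  · rw [WithLp.toLp_add, WithLp.toLp_sum]

end Pool.Agent.Q105.FRX
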