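import Pool.Agent.Q105.FRX.Graph
import Pool.Agent.Q105.FRX.Proj
import Pool.Agent.Q105.FR.Spec

namespace Pool.Agent.Q105.FRX

open Finset Matrix

/-- The graph: two special vertices and four cells of size `31960`. -/
abbrev Xb : SimpleGraph (Vt 31960) := gr 31960 2 26 6 87 1 96 0

theorem kvec_add (N : ℕ) (ψ u₀ u₁ u₂ v₀ v₁ v₂ : ℝ) :
    kvec N ψ u₀ u₁ u₂ + kvec N ψ v₀ v₁ v₂ = kvec N ψ (u₀ + v₀) (u₁ + v₁) (u₂ + v₂) := by
  ext x
  rcases x with p | ⟨i, u⟩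
  · simp only [kvec, cvec, Pi.add_apply]; split_ifs <;> ring
  · simp only [kvec, cvec, Pi.add_apply]; fin_cases i <;> simp <;> ring

theorem kvec_smul (N : ℕ) (t ψ u₀ u₁ u₂ : ℝ) :
    t • kvec N ψ u₀ u₁ u₂ = kvec N ψ (t * u₀) (t * u₁) (t * u₂) := by
  ext x
  rcases x with p | ⟨i, u⟩
  · simp only [kvec, cvec, Pi.smul_apply, smul_eq_mul]; split_ifs <;> ring
  · simp only [kvec, cvec, Pi.smul_apply, smul_eq_mul]; fin_cases i <;> simp <;> ring

/-- A `kvec` is an eigenvector when the three scalar equations hold. -/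
theorem Xb_eig (σ l u₀ u₁ u₂ : ℝ) (hσ : σ * σ = 2)
    (h0 : 31960 * u₁ = l * u₀) (h1 : u₀ + (64 + 12 * σ) * u₁ + 192 * u₂ = l * u₁)
    (h2 : 192 * u₁ + (176 + 2 * σ) * u₂ = l * u₂) :
    Xb.adjMatrix ℝ *ᵥ kvec 31960 (1 + σ) u₀ u₁ u₂ = l • kvec 31960 (1 + σ) u₀ u₁ u₂ := by
  have e := mulVec_kvec 31960 2 26 6 87 1 96 0
    (by intro i j; fin_cases i <;> fin_cases j <;> simp [hm]) (1 + σ) u₀ u₁ u₂
    (by push_cast; linear_combination hσ)
  push_cast at e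
  rw [e, kvec_smul]
  congr 1
  · linarith
  · linarith

/-- eigenvalues `80 + 2 β σ` -/
def lam (σ : ℝ) : Fin 3 → ℝ := ![80 - 190 * σ, 80 + 2 * σ, 80 + 202 * σ]

/-- eigenvectors, normalised so that their sum is `kvec (1+σ) 1 0 0` -/
noncomputable def ev (σ : ℝ) : Fin 3 → Vt 31960 → ℝ :=
  ![kvec 31960 (1 + σ) ((31960 + lam σ 1 * lam σ 2) / 150528) ((lam σ 0 - 176 - 2 * σ) / 150528)
      (192 / 150528),
    kvec 31960 (1 + σ) ((31960 + lam σ 0 * lam σ 2) / (-76800)) ((lam σ 1 - 176 - 2 * σ) / (-76800))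
      (192 / (-76800)),
    kvec 31960 (1 + σ) ((31960 + lam σ 0 * lam σ 1) / 156800) ((lam σ 2 - 176 - 2 * σ) / 156800)
      (192 / 156800)]

theorem ev_sum (σ : ℝ) (hσ : σ * σ = 2) : ∑ r, ev σ r = kvec 31960 (1 + σ) 1 0 0 := by
  simp only [Fin.sum_univ_three, ev, Matrix.cons_val_zero, Matrix.cons_val_one,
    Matrix.cons_val_two, Matrix.head_cons, Matrix.tail_cons]
  rw [kvec_add, kvec_add]
  congr 1
  · simp [lam]; linear_combination ((2 * 202 / 150528 + 190 * 202 / 76800 - 190 * 2 / 156800) : ℝ) * hσ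
  · simp [lam]; ring
  · norm_num

theorem ev_eig (σ : ℝ) (hσ : σ * σ = 2) (r : Fin 3) :
    Xb.adjMatrix ℝ *ᵥ ev σ r = lam σ r • ev σ r := by
  have h3 : σ * σ * σ = 2 * σ := by rw [hσ]
  fin_cases r
  · simp only [ev, Matrix.cons_val_zero, Fin.zero_eta]
    apply Xb_eig σ _ _ _ _ hσ
    · simp [lam]; ring_nf; nlinarith
    · simp [lam]; ring_nf; nlinarith
    · simp [lam]; ring_nf
  · simp only [ev, Fin.mk_one, Matrix.cons_val_one, Matrix.cons_val]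
    apply Xb_eig σ _ _ _ _ hσ
    · simp [lam]; ring_nf; nlinarith
    · simp [lam]; ring_nf; nlinarith
    · simp [lam]; ring_nf
  · simp only [ev, Fin.reduceFinMk, Matrix.cons_val_two]
    apply Xb_eig σ _ _ _ _ hσ
    · simp [lam]; ring_nf; nlinarith
    · simp [lam]; ring_nf; nlinarith
    · simp [lam]; ring_nf

end Pool.Agent.Q105.FRX
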