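import Mathlib

namespace Pool.Agent.Q105.FRX

open Finset Matrix

/-- `u` and `v` are at cyclic distance between `1` and `h` in `ZMod N`. -/
def circ (N h : ℕ) (u v : ZMod N) : Prop := u ≠ v ∧ ((v - u).val ≤ h ∨ (u - v).val ≤ h)

instance (N h : ℕ) (u v : ZMod N) : Decidable (circ N h u v) := by unfold circ; infer_instance

theorem circ_symm {N h : ℕ} {u v : ZMod N} (H : circ N h u v) : circ N h v u :=
  ⟨H.1.symm, H.2.symm⟩

theorem card_le (N h : ℕ) [NeZero N] (hN : h < N) :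
    (univ.filter (fun x : ZMod N => x ≠ 0 ∧ x.val ≤ h)).card = h := by
  have : (univ.filter (fun x : ZMod N => x ≠ 0 ∧ x.val ≤ h))
      = (Finset.Icc 1 h).image (fun k : ℕ => (k : ZMod N)) := by
    ext x
    simp only [Finset.mem_filter, Finset.mem_univ, true_and, Finset.mem_image, Finset.mem_Icc]
    constructor
    · rintro ⟨hx, hv⟩
      refine ⟨x.val, ⟨?_, hv⟩, ZMod.natCast_zmod_val x⟩
      rcases Nat.eq_zero_or_pos x.val with h0 | h0
      · exact absurd ((ZMod.val_eq_zero x).mp h0) hx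
      · exact h0
    · rintro ⟨k, ⟨hk1, hk2⟩, rfl⟩
      have hv : ((k : ZMod N)).val = k := ZMod.val_natCast_of_lt (by omega)
      refine ⟨?_, by rw [hv]; exact hk2⟩
      intro h0
      rw [h0, ZMod.val_zero] at hv
      omega
  rw [this, Finset.card_image_of_injOn]
  · simp
  · intro a ha b hb hab
    simp only [Finset.coe_Icc, Set.mem_Icc] at ha hb
    have h1 : ((a : ZMod N)).val = a := ZMod.val_natCast_of_lt (by omega)
    have h2 : ((b : ZMod N)).val = b := ZMod.val_natCast_of_lt (by omega)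
    have h3 := congrArg ZMod.val hab
    simp only [h1, h2] at h3
    exact h3

theorem card_circ (N h : ℕ) [NeZero N] (hN : 2 * h < N) (u : ZMod N) :
    (univ.filter (fun v : ZMod N => circ N h u v)).card = 2 * h := by
  have e1 : (univ.filter (fun v : ZMod N => circ N h u v))
      = ((univ.filter (fun x : ZMod N => x ≠ 0 ∧ x.val ≤ h)) ∪
        ((univ.filter (fun x : ZMod N => x ≠ 0 ∧ x.val ≤ h)).image (fun x => -x))).image
          (fun x => u + x) := by
    ext v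
    rw [Finset.mem_filter, Finset.mem_image]
    simp only [circ, Finset.mem_filter, Finset.mem_univ, true_and, Finset.mem_image,
      Finset.mem_union]
    constructor
    · rintro ⟨hne, hv | hv⟩
      · exact ⟨v - u, Or.inl ⟨fun h0 => hne (sub_eq_zero.mp h0).symm, hv⟩, by ring⟩
      · exact ⟨v - u, Or.inr ⟨u - v, ⟨fun h0 => hne (sub_eq_zero.mp h0), hv⟩, by ring⟩, by ring⟩
    · rintro ⟨x, hx | ⟨y, hy, rfl⟩, rfl⟩
      · exact ⟨fun h0 => hx.1 (by linear_combination -h0), Or.inl (by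
          have : u + x - u = x := by ring
          rw [this]; exact hx.2)⟩
      · exact ⟨fun h0 => hy.1 (by linear_combination h0), Or.inr (by
          have : u - (u + -y) = y := by ring
          rw [this]; exact hy.2)⟩
  rw [e1, Finset.card_image_of_injective _ (add_right_injective u), Finset.card_union_of_disjoint,
    Finset.card_image_of_injective _ neg_injective, card_le N h (by omega)]
  · ring
  · rw [Finset.disjoint_left]
    intro x hx hx'
    simp only [Finset.mem_filter, Finset.mem_univ, true_and, Finset.mem_image] at hx hx'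
    obtain ⟨y, hy, rfl⟩ := hx'
    have h1 : (-y).val = N - y.val := by
      rw [ZMod.neg_val, if_neg hy.1]
    have h2 := hx.2
    rw [h1] at h2
    have h3 := y.val_lt
    omega

/-- The vertex set: two special vertices and four cells of size `N`. -/
abbrev Vt (N : ℕ) : Type := Fin 2 ⊕ (Fin 4 × ZMod N)

/-- Adjacency: special vertex `p` is joined to all of cell `p`; between (and inside) cells `i`, `j`
the cyclic graph of half-width `h i j`. -/
def adj (N : ℕ) (h : Fin 4 → Fin 4 → ℕ) : Vt N → Vt N → Prop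
  | .inl _, .inl _ => False
  | .inl p, .inr x => p.val = x.1.val
  | .inr x, .inl p => p.val = x.1.val
  | .inr x, .inr y => circ N (h x.1 y.1) x.2 y.2

instance (N : ℕ) (h : Fin 4 → Fin 4 → ℕ) : DecidableRel (adj N h) := fun x y =>
  match x, y with
  | .inl _, .inl _ => isFalse id
  | .inl p, .inr x => decEq p.val x.1.val
  | .inr x, .inl p => decEq p.val x.1.val
  | .inr x, .inr y => inferInstanceAs (Decidable (circ N (h x.1 y.1) x.2 y.2))

/-- The matrix of half-degrees with quadratic structure. -/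
def hm (c x₁ y₁ x₂ y₂ gx gy : ℕ) : Fin 4 → Fin 4 → ℕ :=
  ![![x₁ + c * y₁, y₁, gx + c * gy, gy], ![y₁, x₁, gy, gx],
    ![gx + c * gy, gy, x₂ + c * y₂, y₂], ![gy, gx, y₂, x₂]]

theorem hm_symm (c x₁ y₁ x₂ y₂ gx gy : ℕ) (i j : Fin 4) :
    hm c x₁ y₁ x₂ y₂ gx gy i j = hm c x₁ y₁ x₂ y₂ gx gy j i := by
  fin_cases i <;> fin_cases j <;> rfl

/-- The graph. -/
def gr (N c x₁ y₁ x₂ y₂ gx gy : ℕ) : SimpleGraph (Vt N) where
  Adj := adj N (hm c x₁ y₁ x₂ y₂ gx gy)
  symm := ⟨by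
    rintro (p | x) (q | y) h
    · exact h
    · exact h
    · exact h
    · show circ N (hm c x₁ y₁ x₂ y₂ gx gy y.1 x.1) y.2 x.2
      rw [hm_symm]; exact circ_symm h⟩
  loopless := ⟨by
    rintro (p | x) h
    · exact h
    · exact h.1 rfl⟩

instance (N c x₁ y₁ x₂ y₂ gx gy : ℕ) : DecidableRel (gr N c x₁ y₁ x₂ y₂ gx gy).Adj :=
  inferInstanceAs (DecidableRel (adj N (hm c x₁ y₁ x₂ y₂ gx gy)))

/-- Vectors constant on cells. -/
def cvec (N : ℕ) (xa xb : ℝ) (f : Fin 4 → ℝ) : Vt N → ℝ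
  | .inl p => if p = 0 then xa else xb
  | .inr x => f x.1

/-- Vectors with quadratic structure. -/
def kvec (N : ℕ) (ψ u₀ u₁ u₂ : ℝ) : Vt N → ℝ := cvec N (ψ * u₀) u₀ ![ψ * u₁, u₁, ψ * u₂, u₂]

theorem mulVec_cvec (N c x₁ y₁ x₂ y₂ gx gy : ℕ) [NeZero N] 
    (hN : ∀ i j, 2 * hm c x₁ y₁ x₂ y₂ gx gy i j < N) (xa xb : ℝ) (f : Fin 4 → ℝ) :
    (gr N c x₁ y₁ x₂ y₂ gx gy).adjMatrix ℝ *ᵥ cvec N xa xb f
      = cvec N (N * f 0) (N * f 1) (fun i => (if i = 0 then xa else 0) + (if i = 1 then xb else 0)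
          + ∑ j, (2 * hm c x₁ y₁ x₂ y₂ gx gy i j : ℕ) * f j) := by
  ext v
  simp only [Matrix.mulVec, dotProduct, Fintype.sum_sum_type, Fintype.sum_prod_type,
    SimpleGraph.adjMatrix_apply]
  rcases v with p | ⟨i, u⟩
  · have e1 : ∀ q : Fin 2, (gr N c x₁ y₁ x₂ y₂ gx gy).Adj (.inl p) (.inl q) ↔ False := fun q => Iff.rfl
    have e2 : ∀ (j : Fin 4) (w : ZMod N), (gr N c x₁ y₁ x₂ y₂ gx gy).Adj (.inl p) (.inr (j, w)) ↔
      p.val = j.val := fun j w => Iff.rfl
    simp only [e1, e2, if_false, zero_mul, Finset.sum_const_zero, zero_add, cvec]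
    fin_cases p <;> simp [Fin.sum_univ_four, ZMod.card]
  · have e1 : ∀ q : Fin 2, (gr N c x₁ y₁ x₂ y₂ gx gy).Adj (.inr (i, u)) (.inl q) ↔ q.val = i.val :=
      fun q => Iff.rfl
    have e2 : ∀ (j : Fin 4) (w : ZMod N), (gr N c x₁ y₁ x₂ y₂ gx gy).Adj (.inr (i, u)) (.inr (j, w)) ↔
      circ N (hm c x₁ y₁ x₂ y₂ gx gy i j) u w := fun j w => Iff.rfl
    simp only [e1, e2, cvec]
    have e3 : ∀ j : Fin 4, ∑ w : ZMod N, (if circ N (hm c x₁ y₁ x₂ y₂ gx gy i j) u w then (1 : ℝ) else 0)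
        * f j = (2 * hm c x₁ y₁ x₂ y₂ gx gy i j : ℕ) * f j := by
      intro j
      rw [← Finset.sum_mul, Finset.sum_boole, card_circ N _ (hN i j)]
    simp only [e3]
    congr 1
    fin_cases i <;> simp [Fin.sum_univ_two]

theorem mulVec_kvec (N c x₁ y₁ x₂ y₂ gx gy : ℕ) [NeZero N]
    (hN : ∀ i j, 2 * hm c x₁ y₁ x₂ y₂ gx gy i j < N) (ψ u₀ u₁ u₂ : ℝ)
    (hψ : ψ * ψ = c * ψ + 1) :
    (gr N c x₁ y₁ x₂ y₂ gx gy).adjMatrix ℝ *ᵥ kvec N ψ u₀ u₁ u₂
      = kvec N ψ (N * u₁) (u₀ + 2 * (x₁ + y₁ * ψ) * u₁ + 2 * (gx + gy * ψ) * u₂)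
          (2 * (gx + gy * ψ) * u₁ + 2 * (x₂ + y₂ * ψ) * u₂) := by
  rw [kvec, mulVec_cvec N c x₁ y₁ x₂ y₂ gx gy hN, kvec]
  congr 1
  · simp; ring
  · ext i
    fin_cases i
    · simp [Fin.sum_univ_four, hm]
      linear_combination (-2 * y₁ * u₁ - 2 * gy * u₂ : ℝ) * hψ
    · simp [Fin.sum_univ_four, hm]
      ring
    · simp [Fin.sum_univ_four, hm]
      linear_combination (-2 * gy * u₁ - 2 * y₂ * u₂ : ℝ) * hψ
    · simp [Fin.sum_univ_four, hm]
      ring

end Pool.Agent.Q105.FRX
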